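import Pool.Agent.Lib.MP_97284c_gt.M.Anal
import Pool.Agent.Lib.MP_97284c_gt.StmT

/-!
# MP_97284c_gt, part M: in every maximal polygon (`n ≥ 5`) all classes are occupied
-/

namespace Pool.Agent.Lib.MP_97284c_gt

variable {n : ℕ} {y : ℤ → ℂ}

/-- the unit pairs form a chain -/
theorem m_chain (hC1 : S_C1) (hO : Opt n y) {i j i' j' : ℤ} (h1 : UP n y i j) (h2 : UP n y i' j') :
    (i ≤ i' ∧ j ≤ j') ∨ (i' ≤ i ∧ j' ≤ j) := by
  obtain ⟨hper, hcv, hsm, _⟩ := hO
  rcases lt_trichotomy i i' with h | h | h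
  · left
    refine ⟨h.le, ?_⟩
    by_contra hcon
    push Not at hcon
    exact hC1 n y hper hcv hsm i j i' j' h1 h2 h hcon
  · rcases le_total j j' with h' | h'
    · left; exact ⟨h.le, h'⟩
    · right; exact ⟨h.ge, h'⟩
  · right
    refine ⟨h.le, ?_⟩
    by_contra hcon
    push Not at hcon
    exact hC1 n y hper hcv hsm i' j' i j h2 h1 h hcon

theorem m_left (hC4 : S_C4) (hUPs : S_UPs) (hn : 3 ≤ n) (hO : Opt n y) (k : ℤ) :
    ∃ w, UP n y w k := by
  obtain ⟨w, hw⟩ := hC4 n y hn hO k
  exact ⟨w - n, (hUPs n y hO.1).2.1 k w hw⟩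

/-- the unit pairs at a vertex form a fan -/
theorem m_fan (hC1 : S_C1) (hC4 : S_C4) (hUPs : S_UPs) (hn : 3 ≤ n) (hO : Opt n y)
    {x w w' v : ℤ} (h1 : UP n y x w) (h2 : UP n y x w') (hv1 : w < v) (hv2 : v < w') :
    UP n y x v := by
  obtain ⟨a, ha⟩ := m_left hC4 hUPs hn hO v
  have e1 : x ≤ a := by
    rcases m_chain hC1 hO h1 ha with h | h
    · exact h.1
    · omega
  have e2 : a ≤ x := by
    rcases m_chain hC1 hO h2 ha with h | h
    · omega
    · exact h.1
  have : a = x := le_antisymm e2 e1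
  rw [← this]; exact ha

theorem m_occ_per (hUPs : S_UPs) (hO : Opt n y) (k t : ℤ) : Occ n y (k + t * n) ↔ Occ n y k := by
  have h : ∀ k : ℤ, Occ n y (k + n) = Occ n y k :=
    fun k => propext ((hUPs n y hO.1).2.2.2 k).symm
  rw [per_mul (Occ n y) h k t]

/-- no two consecutive empty classes -/
theorem m_noconsec (hC1 : S_C1) (hC4 : S_C4) (hUPs : S_UPs) (hn : 3 ≤ n) (hO : Opt n y) (k : ℤ)
    (h1 : ¬ Occ n y k) : Occ n y (k + 1) := by
  by_contra h2
  have hnpos : (0 : ℤ) < n := by exact_mod_cast (show 0 < n by omega)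
  -- an occupied class
  obtain ⟨c, hc⟩ : ∃ c, Occ n y c := by
    obtain ⟨w, hw⟩ := hC4 n y hn hO 0
    exact ⟨0 + w, 0, w, rfl, hw⟩
  have hlow : ∃ s, s ≤ k - 1 ∧ Occ n y s := by
    refine ⟨c + (-(|c| + |k| + 1)) * n, ?_, (m_occ_per hUPs hO c _).2 hc⟩
    have := neg_abs_le k
    have := le_abs_self c
    have : (|c| + |k| + 1) * 1 ≤ (|c| + |k| + 1) * n :=
      mul_le_mul_of_nonneg_left (by omega) (by positivity)
    linarith
  have hup : ∃ s, k + 2 ≤ s ∧ Occ n y s := by
    refine ⟨c + (|c| + |k| + 2) * n, ?_, (m_occ_per hUPs hO c _).2 hc⟩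
    have := le_abs_self k
    have := neg_abs_le c
    have : (|c| + |k| + 2) * 1 ≤ (|c| + |k| + 2) * n :=
      mul_le_mul_of_nonneg_left (by omega) (by positivity)
    linarith
  obtain ⟨s', ⟨hs'1, hs'2⟩, hs'max⟩ :=
    Int.exists_greatest_of_bdd (P := fun s => s ≤ k - 1 ∧ Occ n y s) ⟨k - 1, fun z hz => hz.1⟩ hlow
  obtain ⟨s'', ⟨hs''1, hs''2⟩, hs''min⟩ :=
    Int.exists_least_of_bdd (P := fun s => k + 2 ≤ s ∧ Occ n y s) ⟨k + 2, fun z hz => hz.1⟩ hup
  obtain ⟨i, j, hij, hUij⟩ := hs'2
  obtain ⟨i'', j'', hij'', hUij''⟩ := hs''2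
  have hch : i ≤ i'' ∧ j ≤ j'' := by
    rcases m_chain hC1 hO hUij hUij'' with h | h
    · exact h
    · omega
  have key : ∀ a b, UP n y a b → s' < a + b → a + b < s'' → False := by
    intro a b hab h3 h4
    have hocc : Occ n y (a + b) := ⟨a, b, rfl, hab⟩
    have n1 : a + b ≠ k := by intro h; rw [h] at hocc; exact h1 hocc
    have n2 : a + b ≠ k + 1 := by intro h; rw [h] at hocc; exact h2 hocc
    rcases lt_or_ge (a + b) k with h | h
    · have := hs'max (a + b) ⟨by omega, hocc⟩
      omega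
    · have := hs''min (a + b) ⟨by omega, hocc⟩
      omega
  rcases le_or_gt (i + 2) i'' with h | h
  · obtain ⟨w, hw⟩ := hC4 n y hn hO (i + 1)
    have e1 : j ≤ w := by
      rcases m_chain hC1 hO hUij hw with h | h
      · exact h.2
      · omega
    have e2 : w ≤ j'' := by
      rcases m_chain hC1 hO hw hUij'' with h | h
      · exact h.2
      · omega
    exact key _ _ hw (by omega) (by omega)
  · obtain ⟨w, hw⟩ := m_left hC4 hUPs hn hO (j + 1)
    have e1 : i ≤ w := by
      rcases m_chain hC1 hO hUij hw with h | h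
      · exact h.1
      · omega
    have e2 : w ≤ i'' := by
      rcases m_chain hC1 hO hw hUij'' with h | h
      · exact h.1
      · omega
    exact key _ _ hw (by omega) (by omega)

/-- two missing classes at distance at least three are impossible -/
theorem m_group (hP0 : S_P0) (hP1 : S_P1) (hP2 : S_P2) (hC1 : S_C1) (hC3 : S_C3) (hC3b : S_C3b)
    (hC4 : S_C4) (hUPs : S_UPs) (hn : 3 ≤ n) (hO : Opt n y) (s0 s1 : ℤ)
    (h0 : ¬ Occ n y s0) (h1 : ¬ Occ n y s1) (h01 : s0 + 3 ≤ s1) (h10 : s1 < s0 + n) : False := by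
  obtain ⟨U1, U2, U3, U4⟩ := hUPs n y hO.1
  have hnpos : (0 : ℤ) < n := by exact_mod_cast (show 0 < n by omega)
  have hocc0 : ∀ t : ℤ, ¬ Occ n y (s0 + t * n) := fun t h => h0 ((m_occ_per hUPs hO s0 t).1 h)
  have hocc1 : ∀ t : ℤ, ¬ Occ n y (s1 + t * n) := fun t h => h1 ((m_occ_per hUPs hO s1 t).1 h)
  set S : Set ℤ := {x | ∃ w t : ℤ, UP n y x w ∧ s0 + t * n < x + w ∧ x + w < s1 + t * n} with hSdef
  -- all unit pairs at a vertex are on the same side of an empty class
  have hside : ∀ x w w' s : ℤ, UP n y x w → UP n y x w' → ¬ Occ n y s → x + w < s → x + w' < s := by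
    intro x w w' s h2 h3 h4 h5
    by_contra hcon
    push Not at hcon
    rcases hcon.lt_or_eq with h | h
    · have := m_fan hC1 hC4 hUPs hn hO h2 h3 (v := s - x) (by omega) (by omega)
      exact h4 ⟨x, s - x, by ring, this⟩
    · exact h4 ⟨x, w', h.symm, h3⟩
  have hside' : ∀ x w w' s : ℤ, UP n y x w → UP n y x w' → ¬ Occ n y s → s < x + w → s < x + w' := by
    intro x w w' s h2 h3 h4 h5
    by_contra hcon
    push Not at hcon
    rcases hcon.lt_or_eq with h | h
    · have := m_fan hC1 hC4 hUPs hn hO h3 h2 (v := s - x) (by omega) (by omega)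
      exact h4 ⟨x, s - x, by ring, this⟩
    · exact h4 ⟨x, w', h, h3⟩
  have hSw : ∀ x w : ℤ, x ∈ S → UP n y x w → ∃ t : ℤ, s0 + t * n < x + w ∧ x + w < s1 + t * n := by
    rintro x w ⟨w', t, hw', h2, h3⟩ hw
    exact ⟨t, hside' x w' w _ hw' hw (hocc0 t) h2, hside x w' w _ hw' hw (hocc1 t) h3⟩
  have hSper : ∀ k : ℤ, k ∈ S ↔ k + n ∈ S := by
    intro k
    constructor
    · rintro ⟨w, t, hw, h2, h3⟩
      refine ⟨w + n, t + 2, ?_, ?_, ?_⟩
      · have := U3 k w 1 hw
        simpa using this
      · linarith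
      · linarith
    · rintro ⟨w, t, hw, h2, h3⟩
      refine ⟨w - n, t - 2, ?_, ?_, ?_⟩
      · have := U3 (k + n) w (-1) hw
        have e1 : k + n + -1 * n = k := by ring
        have e2 : w + -1 * n = w - n := by ring
        rwa [e1, e2] at this
      · linarith
      · linarith
  have hSU : ∀ i j : ℤ, UP n y i j → (i ∈ S ↔ j ∈ S) := by
    intro i j hij
    constructor
    · intro hi
      obtain ⟨t, h2, h3⟩ := hSw i j hi hij
      refine ⟨i + n, t + 1, U1 i j hij, ?_, ?_⟩
      · linarith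
      · linarith
    · intro hj
      obtain ⟨t, h2, h3⟩ := hSw j (i + n) hj (U1 i j hij)
      refine ⟨j, t - 1, hij, ?_, ?_⟩
      · linarith
      · linarith
  -- the bars around the empty class `s1`
  have o1 : Occ n y (s1 + 1) := m_noconsec hC1 hC4 hUPs hn hO s1 h1
  have o2 : Occ n y (s1 - 1) := by
    by_contra hcon
    have := m_noconsec hC1 hC4 hUPs hn hO (s1 - 1) hcon
    rw [sub_add_cancel] at this
    exact h1 this
  obtain ⟨k, l, hkl, hUkl⟩ := o2
  obtain ⟨k', l', hkl', hUkl'⟩ := o1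
  have hnot1 : ¬ Occ n y (k + l + 1) := by rw [hkl, sub_add_cancel]; exact h1
  obtain ⟨rfl, rfl⟩ := hC3b n y hn hO k l k' l' hUkl hUkl' (by omega) hnot1
  -- a vertex just beyond the group is not in the group
  have hout : ∀ x w : ℤ, UP n y x w → x + w = s1 + 1 ∨ x + w = s1 + 1 + n → x ∉ S := by
    intro x w hxw hor hxS
    obtain ⟨t, h2, h3⟩ := hSw x w hxS hxw
    rcases hor with h | h
    · rw [h] at h2 h3
      have t1 : 0 < t := by
        by_contra hcon
        push Not at hcon
        have : t * n ≤ 0 := mul_nonpos_of_nonpos_of_nonneg hcon hnpos.le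
        omega
      have t2 : t < 1 := by
        by_contra hcon
        push Not at hcon
        have : 1 * (n : ℤ) ≤ t * n := mul_le_mul_of_nonneg_right hcon hnpos.le
        omega
      omega
    · rw [h] at h2 h3
      have t1 : 1 < t := by
        by_contra hcon
        push Not at hcon
        have : t * n ≤ 1 * (n : ℤ) := mul_le_mul_of_nonneg_right hcon hnpos.le
        omega
      have t2 : t < 2 := by
        by_contra hcon
        push Not at hcon
        have : 2 * (n : ℤ) ≤ t * n := mul_le_mul_of_nonneg_right hcon hnpos.le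
        omega
      omega
  have hk1 : k + 1 ∉ S := hout (k + 1) (l + 1) hUkl' (Or.inl (by omega))
  have hl1 : l + 1 ∉ S := hout (l + 1) (k + 1 + n) (U1 _ _ hUkl') (Or.inr (by omega))
  -- periodicity of `y`
  have hperm : ∀ k t : ℤ, y (k + t * n) = y k := per_mul y hO.1
  -- final contradiction from a leaf
  have hfin : ∀ x w : ℤ, UP n y x w → (∀ w', UP n y x w' → w' = w) → x - 1 ∈ S → x + 1 ∉ S → False := by
    intro x w hxw hu hx1 hx2
    apply m_analytic hP0 hP1 hP2 hn hO S hSper hSU x w hxw ?_ hx1 hx2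
    intro i j hij
    constructor
    · rintro ⟨t, ht⟩
      have h2 := U3 i j (-t) hij
      have e1 : i + -t * n = x := by linarith [mul_comm (n : ℤ) t]
      rw [e1] at h2
      have h3 := hu _ h2
      have h4 := hperm j (-t)
      rw [h3] at h4
      exact h4.symm
    · rintro ⟨t, ht⟩
      have h2 := U1 _ _ (U3 i j (-t) hij)
      have e1 : j + -t * n = x := by linarith [mul_comm (n : ℤ) t]
      rw [e1] at h2
      have h3 := hu _ h2
      have h4 := hperm i (1 - t)
      have e2 : i + (1 - t) * n = i + -t * n + n := by ring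
      rw [e2, h3] at h4
      exact h4.symm
  -- previous bar
  by_cases o3 : Occ n y (s1 - 2)
  · obtain ⟨a, b, hab, hUab⟩ := o3
    have hS1 : ∀ x w : ℤ, UP n y x w → x + w = s1 - 2 ∨ x + w = s1 - 2 + n → x ∈ S := by
      intro x w hxw hor
      rcases hor with h | h
      · exact ⟨w, 0, hxw, by omega, by omega⟩
      · exact ⟨w, 1, hxw, by omega, by omega⟩
    rcases hC3 n y hO.1 hO.2.1 hO.2.2.1 a b k l hUab hUkl (by omega) with ⟨h2, h3⟩ | ⟨h2, h3⟩
    · -- `a = k`, `b = l - 1`: leaf `l`
      subst h2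
      have hb : l - 1 ∈ S := by
        have e : b = l - 1 := by omega
        rw [← e]
        exact hS1 b (k + n) (U1 _ _ hUab) (Or.inr (by omega))
      apply hfin l (k + n) (U1 _ _ hUkl) ?_ hb hl1
      intro w' hw'
      have hw2 := U2 _ _ hw'
      -- `UP (w' - n) l`
      have e1 : w' - n ≤ k := by
        by_contra hcon
        push Not at hcon
        -- fan at `l` from the left: the class `s1` would be occupied
        have := hside l (k + n) w' (s1 + n) (U1 _ _ hUkl) hw' (by
          have := hocc1 1; simpa using this) (by omega)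
        omega
      have e2 : k ≤ w' - n := by
        rcases m_chain hC1 hO hw2 hUab with h | h
        · omega
        · exact h.1
      omega
    · -- `k = a + 1`, `l = b`: leaf `k`
      have ha : k - 1 ∈ S := by
        have e : a = k - 1 := by omega
        rw [← e]
        exact hS1 a b hUab (Or.inl hab)
      apply hfin k l hUkl ?_ ha hk1
      intro w' hw'
      have e1 : w' ≤ l := by
        by_contra hcon
        push Not at hcon
        have := hside k l w' s1 hUkl hw' h1 (by omega)
        omega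
      have e2 : l ≤ w' := by
        rcases m_chain hC1 hO hUab hw' with h | h
        · omega
        · omega
      omega
  · have o4 : Occ n y (s1 - 3) := by
      by_contra hcon
      have := m_noconsec hC1 hC4 hUPs hn hO (s1 - 3) hcon
      have e : s1 - 3 + 1 = s1 - 2 := by ring
      rw [e] at this
      exact o3 this
    have hne : s1 - 3 ≠ s0 := by
      intro h; rw [h] at o4; exact h0 o4
    obtain ⟨a, b, hab, hUab⟩ := o4
    have hnot2 : ¬ Occ n y (a + b + 1) := by
      rw [hab]
      have e : s1 - 3 + 1 = s1 - 2 := by ring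
      rw [e]; exact o3
    obtain ⟨h2, h3⟩ := hC3b n y hn hO a b k l hUab hUkl (by omega) hnot2
    have ha : k - 1 ∈ S := by
      have e : a = k - 1 := by omega
      rw [← e]
      exact ⟨b, 0, hUab, by omega, by omega⟩
    apply hfin k l hUkl ?_ ha hk1
    intro w' hw'
    have e1 : w' ≤ l := by
      by_contra hcon
      push Not at hcon
      have := hside k l w' s1 hUkl hw' h1 (by omega)
      omega
    have e2 : l ≤ w' := by
      have := hside' k l w' (s1 - 2) hUkl hw' o3 (by omega)
      omega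
    omega

/-- [M] In every maximal polygon with at least five vertices all classes are occupied. -/
theorem m_all (hP0 : S_P0) (hP1 : S_P1) (hP2 : S_P2) (hC1 : S_C1) (hC3 : S_C3) (hC3b : S_C3b)
    (hC4 : S_C4) (hUPs : S_UPs) (hT1 : S_T1) (hT7 : S_T7) (hn : 5 ≤ n) (hO : Opt n y) (k : ℤ) :
    Occ n y k := by
  by_contra hk
  have hnpos : (0 : ℤ) < n := by exact_mod_cast (show 0 < n by omega)
  -- all other classes are occupied
  have hother : ∀ s : ℤ, ¬ ((n : ℤ) ∣ s - k) → Occ n y s := by
    intro s hs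
    by_contra hocc
    -- representative of `s` in `(k, k + n)`
    obtain ⟨r, t, hr0, hr1, hr2⟩ : ∃ r t : ℤ, k < r ∧ r < k + n ∧ s = r + t * n := by
      refine ⟨k + (s - k) % n, (s - k) / n, ?_, ?_, ?_⟩
      · have h2 : 0 ≤ (s - k) % n := Int.emod_nonneg _ hnpos.ne'
        have h3 : (s - k) % n ≠ 0 := fun h => hs (Int.dvd_of_emod_eq_zero h)
        omega
      · have := Int.emod_lt_of_pos (s - k) hnpos
        omega
      · have := Int.emod_add_mul_ediv (s - k) n
        linarith [mul_comm (n : ℤ) ((s - k) / n)]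
    have hr : ¬ Occ n y r := by
      intro h
      apply hocc
      rw [hr2]
      exact (m_occ_per hUPs hO r t).2 h
    rcases le_or_gt (k + 3) r with h | h
    · exact m_group hP0 hP1 hP2 hC1 hC3 hC3b hC4 hUPs (by omega) hO k r hk hr h hr1
    · have hk' : ¬ Occ n y (k + n) := by
        have := (m_occ_per hUPs hO k 1)
        rw [one_mul] at this
        exact fun h => hk (this.1 h)
      exact m_group hP0 hP1 hP2 hC1 hC3 hC3b hC4 hUPs (by omega) hO r (k + n) hr hk'
        (by omega) (by omega)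
  obtain ⟨I, J, ε, hTS⟩ := hT1 n y (k + 1) (by omega) hO (by rwa [add_sub_cancel_right])
    (by rwa [add_sub_cancel_right])
  exact hT7 n (n - 1) y I J ε (by omega) hO hTS

end Pool.Agent.Lib.MP_97284c_gt
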