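import Pool.Agent.Lib.MP_97284c_gt.StmC

/-!
# MP_97284c_gt, part M: a leaf at the end of a group of components contradicts maximality
-/

namespace Pool.Agent.Lib.MP_97284c_gt

theorem m_sh_add (n : ℕ) (y η : ℤ → ℂ) :
    sh n (fun k => y k + η k) = sh n y + Bf n y η + sh n η := by
  unfold sh Bf
  rw [← add_div, ← add_div, ← Finset.sum_add_distrib, ← Finset.sum_add_distrib]
  congr 1
  apply Finset.sum_congr rfl
  intro j _
  unfold cr
  simp only [Complex.add_re, Complex.add_im]
  ring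

theorem m_Bf_add (n : ℕ) (y u v : ℤ → ℂ) :
    Bf n y (fun k => u k + v k) = Bf n y u + Bf n y v := by
  unfold Bf
  rw [← add_div, ← Finset.sum_add_distrib]
  congr 1
  apply Finset.sum_congr rfl
  intro j _
  unfold cr
  simp only [Complex.add_re, Complex.add_im]
  ring

theorem m_Bf_comm (n : ℕ) (u v : ℤ → ℂ) : Bf n u v = Bf n v u := by
  unfold Bf
  congr 1
  apply Finset.sum_congr rfl
  intro j _
  ring

theorem m_Bf_neg (n : ℕ) (y u : ℤ → ℂ) : Bf n y (fun k => - u k) = - Bf n y u := by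
  unfold Bf
  rw [← neg_div, ← Finset.sum_neg_distrib]
  congr 1
  apply Finset.sum_congr rfl
  intro j _
  unfold cr
  simp only [Complex.neg_re, Complex.neg_im]
  ring

theorem m_sh_two (n : ℕ) (u : ℤ → ℂ) (a : ℂ) (h : ∀ k, u k = 0 ∨ u k = a) : sh n u = 0 := by
  unfold sh
  rw [Finset.sum_eq_zero]
  · simp
  · intro j _
    rcases h j with h1 | h1 <;> rcases h (j + 1) with h2 | h2 <;> rw [h1, h2] <;>
      simp [cr, mul_comm]

/-- the contradiction -/
theorem m_analytic (hP0 : S_P0) (hP1 : S_P1) (hP2 : S_P2) {n : ℕ} {y : ℤ → ℂ} (hn : 3 ≤ n)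
    (hO : Opt n y) (S : Set ℤ) (hS : ∀ k : ℤ, k ∈ S ↔ k + n ∈ S)
    (hU : ∀ i j : ℤ, UP n y i j → (i ∈ S ↔ j ∈ S)) (x w : ℤ) (hx : UP n y x w)
    (hleaf : ∀ i j : ℤ, UP n y i j → ((n : ℤ) ∣ i - x → y j = y w) ∧ ((n : ℤ) ∣ j - x → y i = y w))
    (h1 : x - 1 ∈ S) (h2 : x + 1 ∉ S) : False := by
  have hper := hO.1
  have hperm : ∀ k t : ℤ, y (k + t * n) = y k := per_mul y hper
  have hdvd : ∀ k : ℤ, (n : ℤ) ∣ k - x → y k = y x := by
    rintro k ⟨t, ht⟩
    have := hperm x t
    rw [← this]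
    congr 1
    linarith [mul_comm (n : ℤ) t]
  set D := y x - y w with hD
  have hDn : ‖D‖ = 1 := hx.2.2
  have hDD : dt D D = 1 := by rw [dt_self, hDn]; norm_num
  -- displacement of one residue class
  let one : ℂ → ℤ → ℂ := fun ξ j => if (n : ℤ) ∣ j - x then ξ else 0
  have hone_per : ∀ ξ, Per n (one ξ) := by
    intro ξ k
    simp only [one]
    have : (n : ℤ) ∣ k + n - x ↔ (n : ℤ) ∣ k - x := by
      constructor
      · rintro ⟨t, ht⟩; exact ⟨t - 1, by linarith [mul_sub (n : ℤ) t 1]⟩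
      · rintro ⟨t, ht⟩; exact ⟨t + 1, by linarith [mul_add (n : ℤ) t 1]⟩
    simp only [this]
  have hnot : ∀ i j, UP n y i j → (n : ℤ) ∣ i - x → (n : ℤ) ∣ j - x → False := by
    rintro i j ⟨hij, hji, _⟩ ⟨s, hs⟩ ⟨t, ht⟩
    have h3 : j - i = n * (t - s) := by rw [mul_sub, ← hs, ← ht]; ring
    have hnpos : (0 : ℤ) < n := by exact_mod_cast (show 0 < n by omega)
    have h4 : 0 < t - s := by
      by_contra hcon
      push Not at hcon
      have : (n : ℤ) * (t - s) ≤ 0 := mul_nonpos_of_nonneg_of_nonpos hnpos.le hcon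
      omega
    have h5 : (n : ℤ) * 1 ≤ n * (t - s) := mul_le_mul_of_nonneg_left (by omega) hnpos.le
    omega
  -- the first variation in the direction orthogonal to the bar
  have hfirst : ∀ ξ : ℂ, dt D ξ = 0 → Bf n y (one ξ) ≤ 0 := by
    intro ξ hξ
    apply hP1 n y (one ξ) (by omega) hO (hone_per ξ)
    intro i j hij
    simp only [one]
    by_cases hi : (n : ℤ) ∣ i - x
    · have hj : ¬ (n : ℤ) ∣ j - x := fun hj => hnot i j hij hi hj
      rw [if_pos hi, if_neg hj, hdvd i hi, (hleaf i j hij).1 hi, ← hD, sub_zero, hξ]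
    · rw [if_neg hi]
      by_cases hj : (n : ℤ) ∣ j - x
      · rw [if_pos hj, hdvd j hj, (hleaf i j hij).2 hj]
        have : dt (y w - y x) (0 - ξ) = dt D ξ := by
          rw [hD]; unfold dt; simp; ring
        rw [this, hξ]
      · rw [if_neg hj]; simp [dt]
  have hID : dt D (Complex.I * D) = 0 := by unfold dt; simp; ring
  have hID' : dt D (-(Complex.I * D)) = 0 := by unfold dt; simp; ring
  have hcr0 : cr (Complex.I * D) (y (x + 1) - y (x - 1)) = 0 := by
    have e1 := hfirst _ hID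
    have e2 := hfirst _ hID'
    rw [hP2 n y x _ hn hper] at e1 e2
    have e3 : cr (-(Complex.I * D)) (y (x + 1) - y (x - 1)) =
        - cr (Complex.I * D) (y (x + 1) - y (x - 1)) := by unfold cr; simp; ring
    rw [e3] at e2
    linarith
  -- translation of the group
  let ind : ℂ → ℤ → ℂ := fun τ => Set.indicator S (fun _ => τ)
  have hind_val : ∀ τ k, ind τ k = 0 ∨ ind τ k = τ := by
    intro τ k
    by_cases h : k ∈ S
    · right; simp [ind, h]
    · left; simp [ind, h]
  have hind_per : ∀ τ, Per n (ind τ) := by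
    intro τ k
    simp only [ind]
    by_cases h : k ∈ S
    · rw [Set.indicator_of_mem h, Set.indicator_of_mem ((hS k).1 h)]
    · rw [Set.indicator_of_notMem h, Set.indicator_of_notMem (fun h' => h ((hS k).2 h'))]
  have hind_up : ∀ τ i j, UP n y i j → ind τ i = ind τ j := by
    intro τ i j hij
    simp only [ind]
    by_cases h : i ∈ S
    · rw [Set.indicator_of_mem h, Set.indicator_of_mem ((hU i j hij).1 h)]
    · rw [Set.indicator_of_notMem h, Set.indicator_of_notMem (fun h' => h ((hU i j hij).2 h'))]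
  have hBind : ∀ τ, Bf n y (ind τ) = 0 := by
    intro τ
    have key : ∀ τ, Bf n y (ind τ) ≤ 0 := by
      intro τ
      apply hP1 n y (ind τ) (by omega) hO (hind_per τ)
      intro i j hij
      rw [hind_up τ i j hij, sub_self]
      simp [dt]
    have e1 := key τ
    have e2 := key (-τ)
    have e3 : ind (-τ) = fun k => - ind τ k := by
      ext k
      rcases em (k ∈ S) with h | h
      · simp [ind, h]
      · simp [ind, h]
    rw [e3, m_Bf_neg] at e2
    linarith
  -- local maximality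
  obtain ⟨δ, hδ, hloc⟩ := hP0 n y (by omega) hO
  set c := cr D (y (x + 1) - y (x - 1)) with hc
  have hmain : ∀ t : ℝ, 0 < t → t ≤ 1 → 3 * t < δ →
      t * Real.sin (t ^ 2) ≤ (1 - Real.cos (t ^ 2)) * c := by
    intro t ht0 ht1 htδ
    set e := Complex.exp ((t ^ 2 : ℝ) * Complex.I) with he
    set dl := (e - 1) * D with hdl
    let z : ℤ → ℂ := fun k => y k + (one dl k + ind ((t : ℂ) * D) k)
    have hzper : Per n z := by
      intro k
      simp only [z]
      rw [hper k, hone_per dl k, hind_per _ k]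
    have he1 : ‖e - 1‖ ≤ t ^ 2 := by
      have := Real.norm_exp_I_mul_ofReal_sub_one_le (x := t ^ 2)
      rw [mul_comm] at this
      rw [he]
      refine this.trans ?_
      rw [Real.norm_of_nonneg (by positivity)]
    have hdln : ‖dl‖ ≤ t := by
      rw [hdl, norm_mul, hDn, mul_one]
      nlinarith
    have hclose : ∀ k, ‖z k - y k‖ < δ := by
      intro k
      have e1 : z k - y k = one dl k + ind ((t : ℂ) * D) k := by simp only [z]; ring
      rw [e1]
      have e2 : ‖one dl k‖ ≤ t := by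
        simp only [one]
        split_ifs
        · exact hdln
        · simp; exact ht0.le
      have e3 : ‖ind ((t : ℂ) * D) k‖ ≤ t := by
        rcases hind_val ((t : ℂ) * D) k with h | h
        · rw [h]; simp; exact ht0.le
        · rw [h, norm_mul, hDn, mul_one, Complex.norm_real, Real.norm_of_nonneg ht0.le]
      have := norm_add_le (one dl k) (ind ((t : ℂ) * D) k)
      linarith
    have hup : ∀ i j, UP n y i j → ‖z i - z j‖ ≤ 1 := by
      intro i j hij
      have e1 : z i - z j = (y i - y j) + (one dl i - one dl j) := by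
        simp only [z]
        rw [hind_up _ i j hij]; ring
      rw [e1]
      have hrot : ‖D + dl‖ = 1 := by
        have : D + dl = e * D := by rw [hdl]; ring
        rw [this, norm_mul, hDn, mul_one, he, Complex.norm_exp_ofReal_mul_I]
      by_cases hi : (n : ℤ) ∣ i - x
      · have hj : ¬ (n : ℤ) ∣ j - x := fun hj => hnot i j hij hi hj
        simp only [one]
        rw [if_pos hi, if_neg hj, hdvd i hi, (hleaf i j hij).1 hi, ← hD, sub_zero, hrot]
      · simp only [one]
        rw [if_neg hi]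
        by_cases hj : (n : ℤ) ∣ j - x
        · rw [if_pos hj, hdvd j hj, (hleaf i j hij).2 hj]
          have : y w - y x + (0 - dl) = -(D + dl) := by rw [hD]; ring
          rw [this, norm_neg, hrot]
        · rw [if_neg hj, sub_zero, add_zero, hij.2.2]
    have hle := hloc z hzper hclose hup
    have hz : sh n z = sh n y + cr dl (y (x + 1) - y (x - 1)) / 2 + cr dl (0 - (t : ℂ) * D) / 2 := by
      have e1 : sh n z = sh n y + Bf n y (fun k => one dl k + ind ((t : ℂ) * D) k) +
          sh n (fun k => one dl k + ind ((t : ℂ) * D) k) := m_sh_add n y _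
      rw [e1, m_Bf_add, m_sh_add, hBind]
      have e2 : sh n (one dl) = 0 := by
        apply m_sh_two n _ dl
        intro k
        simp only [one]
        split_ifs
        · right; rfl
        · left; rfl
      have e3 : sh n (ind ((t : ℂ) * D)) = 0 := m_sh_two n _ _ (hind_val _)
      have e4 : Bf n (one dl) (ind ((t : ℂ) * D)) = cr dl (0 - (t : ℂ) * D) / 2 := by
        rw [m_Bf_comm, hP2 n _ x dl hn (hind_per _)]
        have i1 : ind ((t : ℂ) * D) (x + 1) = 0 := by simp [ind, h2]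
        have i2 : ind ((t : ℂ) * D) (x - 1) = (t : ℂ) * D := by simp [ind, h1]
        rw [i1, i2]
      rw [e2, e3, e4, hP2 n y x dl hn hper]
      ring
    have hdl2 : dl = ((Real.cos (t ^ 2) - 1 : ℝ) : ℂ) * D + ((Real.sin (t ^ 2) : ℝ) : ℂ) * (Complex.I * D) := by
      rw [hdl, he, Complex.exp_mul_I, ← Complex.ofReal_cos, ← Complex.ofReal_sin]
      push_cast; ring
    have hcr1 : cr dl (y (x + 1) - y (x - 1)) = (Real.cos (t ^ 2) - 1) * c := by
      rw [hdl2]
      have : ∀ (a b : ℝ) (u v p : ℂ), cr ((a : ℂ) * u + (b : ℂ) * v) p = a * cr u p + b * cr v p := by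
        intro a b u v p; unfold cr; simp; ring
      rw [this, hcr0, ← hc]; ring
    have hcr2 : cr dl (0 - (t : ℂ) * D) = t * Real.sin (t ^ 2) := by
      rw [hdl2]
      have h3 : dt D D = 1 := hDD
      unfold dt at h3
      unfold cr
      simp only [Complex.add_re, Complex.add_im, Complex.mul_re, Complex.mul_im, Complex.ofReal_re,
        Complex.ofReal_im, Complex.I_re, Complex.I_im, Complex.sub_re, Complex.sub_im,
        Complex.zero_re, Complex.zero_im]
      linear_combination (t * Real.sin (t ^ 2)) * h3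
    rw [hz, hcr1, hcr2] at hle
    linarith
  -- choose `t` small
  obtain ⟨t, ht0, ht1, ht2, ht3⟩ : ∃ t : ℝ, 0 < t ∧ t ≤ 1 ∧ 3 * t < δ ∧ t * (|c| + 1) ≤ 1 := by
    refine ⟨min 1 (min (δ / 4) (1 / (|c| + 1))), ?_, min_le_left _ _, ?_, ?_⟩
    · positivity
    · have : min 1 (min (δ / 4) (1 / (|c| + 1))) ≤ δ / 4 := (min_le_right _ _).trans (min_le_left _ _)
      linarith
    · have h3 : min 1 (min (δ / 4) (1 / (|c| + 1))) ≤ 1 / (|c| + 1) :=
        (min_le_right _ _).trans (min_le_right _ _)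
      have h4 : 0 < |c| + 1 := by positivity
      calc min 1 (min (δ / 4) (1 / (|c| + 1))) * (|c| + 1) ≤ 1 / (|c| + 1) * (|c| + 1) :=
            mul_le_mul_of_nonneg_right h3 h4.le
        _ = 1 := by field_simp
  have h := hmain t ht0 ht1 ht2
  have hs : t ^ 2 * (3 / 4) ≤ Real.sin (t ^ 2) := by
    have h5 : 0 < t ^ 2 := by positivity
    have h6 : t ^ 2 ≤ 1 := by nlinarith
    have h10 := Real.sin_gt_sub_cube h5
    have h11 : (t ^ 2) ^ 2 ≤ 1 := pow_le_one₀ h5.le h6
    have h12 : (t ^ 2) ^ 3 ≤ t ^ 2 := by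
      calc (t ^ 2) ^ 3 = t ^ 2 * (t ^ 2) ^ 2 := by ring
        _ ≤ t ^ 2 * 1 := mul_le_mul_of_nonneg_left h11 h5.le
        _ = t ^ 2 := mul_one _
    linarith
  have hcos : 1 - Real.cos (t ^ 2) ≤ (t ^ 2) ^ 2 / 2 := by
    have := Real.one_sub_sq_div_two_le_cos (x := t ^ 2)
    linarith
  have hcos0 : 0 ≤ 1 - Real.cos (t ^ 2) := by linarith [Real.cos_le_one (t ^ 2)]
  have h7 : (1 - Real.cos (t ^ 2)) * c ≤ (t ^ 2) ^ 2 / 2 * |c| := by
    calc (1 - Real.cos (t ^ 2)) * c ≤ (1 - Real.cos (t ^ 2)) * |c| :=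
          mul_le_mul_of_nonneg_left (le_abs_self c) hcos0
      _ ≤ _ := mul_le_mul_of_nonneg_right hcos (abs_nonneg c)
  have h8 : t * (t ^ 2 * (3 / 4)) ≤ (t ^ 2) ^ 2 / 2 * |c| :=
    (mul_le_mul_of_nonneg_left hs ht0.le).trans (h.trans h7)
  have h9 : (t ^ 2) ^ 2 / 2 * |c| ≤ t ^ 3 / 2 := by
    have e : (t ^ 2) ^ 2 / 2 * |c| = t ^ 3 / 2 * (t * |c|) := by ring
    rw [e]
    have : t * |c| ≤ 1 := by nlinarith
    have h10 : 0 ≤ t ^ 3 / 2 := by positivity
    nlinarith
  have h11 : 0 < t ^ 3 := by positivity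
  nlinarith

end Pool.Agent.Lib.MP_97284c_gt
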